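import Pool.Agent.Helper33.IR.Goals2

/-!
Project IR (MP_6829b3_nt), packet BR: the bridge between `V` and `lambda`.
-/

set_option autoImplicit false

namespace Pool.Agent.Helper22.IR

open Pool.Agent.Helper33.IR
open Pool.Agent.Helper96.VF (mu trm lam)

/-! ### the integrand -/

theorem mu_eq (a b c d : ℝ) (ha : 0 < a) (hc : 0 < c) (hab : a < b) (hcd : c < d) :
    mu a b c d = if a < d ∧ c < b then 1 / max a c - 1 / min b d else 0 := by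
  unfold mu
  have h0 : 0 < max a c := lt_max_of_lt_left ha
  have h1 : 0 < min b d := lt_min (lt_trans ha hab) (lt_trans hc hcd)
  split_ifs with h
  · have h2 : max a c < min b d := max_lt (lt_min hab h.1) (lt_min h.2 hcd)
    refine max_eq_right ?_
    rw [sub_nonneg]
    exact one_div_le_one_div_of_le h0 h2.le
  · refine max_eq_left ?_
    rw [sub_nonpos]
    refine one_div_le_one_div_of_le h1 ?_
    by_contra hcon
    push Not at hcon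
    exact h ⟨lt_of_le_of_lt (le_max_left _ _) (lt_of_lt_of_le hcon (min_le_right _ _)),
      lt_of_le_of_lt (le_max_right _ _) (lt_of_lt_of_le hcon (min_le_left _ _))⟩

theorem mu1 (x y : ℝ) (hx : 0 < x) (hy : 0 < y) :
    mu (2 * x) (4 * x) (2 * y) (3 * y) =
      (if x ≤ y ∧ y < 2 * x then 1 / 2 / y else 0) -
      (if 3 * y ≤ 4 * x ∧ 2 * x < 3 * y then 1 / (3 * y) else 0) +
      (if y < x ∧ 2 * x < 3 * y then 1 / 2 / x else 0) -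
      (if 4 * x < 3 * y ∧ y < 2 * x then 1 / (4 * x) else 0) := by
  rw [mu_eq _ _ _ _ (by linarith) (by linarith) (by linarith) (by linarith)]
  rcases le_or_gt x y with h1 | h1
  · rw [max_eq_right (by linarith : 2 * x ≤ 2 * y), if_neg (by intro h; linarith [h.1] : ¬ (y < x ∧ 2 * x < 3 * y))]
    rcases le_or_gt (3 * y) (4 * x) with h2 | h2
    · rw [min_eq_right h2, if_neg (by intro h; linarith [h.1] : ¬ (4 * x < 3 * y ∧ y < 2 * x)),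
        if_pos (by constructor <;> linarith), if_pos ⟨h1, by linarith⟩, if_pos ⟨h2, by linarith⟩]
      field_simp
      ring
    · rw [min_eq_left h2.le, if_neg (by intro h; linarith [h.1] : ¬ (3 * y ≤ 4 * x ∧ 2 * x < 3 * y))]
      by_cases h3 : y < 2 * x
      · rw [if_pos (by constructor <;> linarith), if_pos ⟨h1, h3⟩, if_pos ⟨h2, h3⟩]
        field_simp
        ring
      · rw [if_neg (by intro h; linarith [h.2]), if_neg (fun h => h3 h.2), if_neg (fun h => h3 h.2)]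
        ring
  · rw [max_eq_left (by linarith : 2 * y ≤ 2 * x), if_neg (by intro h; linarith [h.1] : ¬ (x ≤ y ∧ y < 2 * x))]
    rw [min_eq_right (by linarith : 3 * y ≤ 4 * x),
      if_neg (by intro h; linarith [h.1] : ¬ (4 * x < 3 * y ∧ y < 2 * x))]
    by_cases h3 : 2 * x < 3 * y
    · rw [if_pos (by constructor <;> linarith), if_pos ⟨by linarith, h3⟩, if_pos ⟨h1, h3⟩]
      field_simp
      ring
    · rw [if_neg (fun h => h3 h.1), if_neg (fun h => h3 h.2), if_neg (fun h => h3 h.2)]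
      ring

theorem mu2 (x y : ℝ) (hx : 0 < x) (hy : 0 < y) :
    mu (16 * x) (20 * x) (10 * y) (12 * y) =
      (if 8 * x ≤ 5 * y ∧ y < 2 * x then 1 / 10 / y else 0) -
      (if 3 * y ≤ 5 * x ∧ 4 * x < 3 * y then 1 / 4 / (3 * y) else 0) +
      (if 5 * y < 8 * x ∧ 4 * x < 3 * y then 1 / (16 * x) else 0) -
      (if 5 * x < 3 * y ∧ y < 2 * x then 1 / 20 / x else 0) := by
  rw [mu_eq _ _ _ _ (by linarith) (by linarith) (by linarith) (by linarith)]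
  rcases le_or_gt (8 * x) (5 * y) with h1 | h1
  · rw [max_eq_right (by linarith : 16 * x ≤ 10 * y),
      if_neg (by intro h; linarith [h.1] : ¬ (5 * y < 8 * x ∧ 4 * x < 3 * y))]
    rcases le_or_gt (3 * y) (5 * x) with h2 | h2
    · rw [min_eq_right (by linarith : 12 * y ≤ 20 * x),
        if_neg (by intro h; linarith [h.1] : ¬ (5 * x < 3 * y ∧ y < 2 * x)),
        if_pos (by constructor <;> linarith), if_pos ⟨h1, by linarith⟩, if_pos ⟨h2, by linarith⟩]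
      field_simp
      ring
    · rw [min_eq_left (by linarith : 20 * x ≤ 12 * y),
        if_neg (by intro h; linarith [h.1] : ¬ (3 * y ≤ 5 * x ∧ 4 * x < 3 * y))]
      by_cases h3 : y < 2 * x
      · rw [if_pos (by constructor <;> linarith), if_pos ⟨h1, h3⟩, if_pos ⟨h2, h3⟩]
        field_simp
        ring
      · rw [if_neg (by intro h; linarith [h.2]), if_neg (fun h => h3 h.2), if_neg (fun h => h3 h.2)]
        ring
  · rw [max_eq_left (by linarith : 10 * y ≤ 16 * x),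
      if_neg (by intro h; linarith [h.1] : ¬ (8 * x ≤ 5 * y ∧ y < 2 * x))]
    rw [min_eq_right (by linarith : 12 * y ≤ 20 * x),
      if_neg (by intro h; linarith [h.1] : ¬ (5 * x < 3 * y ∧ y < 2 * x))]
    by_cases h3 : 4 * x < 3 * y
    · rw [if_pos (by constructor <;> linarith), if_pos ⟨by linarith, h3⟩, if_pos ⟨h1, h3⟩]
      field_simp
      ring
    · rw [if_neg (by intro h; linarith [h.1]), if_neg (fun h => h3 h.2), if_neg (fun h => h3 h.2)]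
      ring

/-! ### sums over columns and rows -/

open Classical in
theorem col_sum (P : ℕ → ℕ → Prop) [∀ j b, Decidable (P j b)] (g : ℕ → ℝ) (hP : ∀ b j j', P j b → P j' b → j = j')
    (hg : Summable g) :
    HasSum (fun x : ℕ × ℕ => if P x.1 x.2 then g x.2 else 0)
      (∑' b, if ∃ j, P j b then g b else 0) := by
  have hh : Summable (fun b => if ∃ j, P j b then g b else 0) := by
    refine Summable.of_norm_bounded hg.norm ?_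
    intro b
    split_ifs
    · exact le_rfl
    · simp
  have h1 := hh.hasSum
  let S : Set ℕ := {b | ∃ j, P j b}
  have hinj1 : Function.Injective (Subtype.val : S → ℕ) := Subtype.val_injective
  rw [← hinj1.hasSum_iff] at h1
  · let e : S → ℕ × ℕ := fun b => (Classical.choose b.2, b.1)
    have hinj2 : Function.Injective e := by
      intro b b' h
      exact Subtype.ext (congrArg Prod.snd h)
    rw [← hinj2.hasSum_iff]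
    · convert h1 using 1
      funext b
      have h2 : P (Classical.choose b.2) b.1 := Classical.choose_spec b.2
      have h3 : ∃ j, P j b.1 := b.2
      simp only [Function.comp, e]
      rw [if_pos h2, if_pos h3]
    · intro x hx
      by_contra hcon
      have h2 : P x.1 x.2 := by
        by_contra h3
        exact hcon (if_neg h3)
      have h3 : x.2 ∈ S := ⟨x.1, h2⟩
      refine hx ⟨⟨x.2, h3⟩, ?_⟩
      have h4 : P (Classical.choose h3) x.2 := Classical.choose_spec h3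
      exact Prod.ext (hP x.2 _ _ h4 h2) rfl
  · intro b hb
    have h2 : ¬ ∃ j, P j b := fun h => hb ⟨⟨b, h⟩, rfl⟩
    exact if_neg h2

open Classical in
theorem row_sum (P : ℕ → ℕ → Prop) [∀ j b, Decidable (P j b)] (g : ℕ → ℝ) (hP : ∀ j b b', P j b → P j b' → b = b')
    (hg : Summable g) :
    HasSum (fun x : ℕ × ℕ => if P x.1 x.2 then g x.1 else 0)
      (∑' j, if ∃ b, P j b then g j else 0) := by
  have h := col_sum (fun b j => P j b) g (fun j b b' => hP j b b') hg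
  rw [← (Equiv.prodComm ℕ ℕ).hasSum_iff] at h
  exact h

/-! ### positions -/

theorem log4_eq (b n : ℕ) (h1 : 4 ^ n ≤ 3 ^ b) (h2 : 3 ^ b < 4 * 4 ^ n) :
    Nat.log 4 (3 ^ b) = n := by
  rw [Nat.log_eq_iff (Or.inr ⟨by norm_num, by positivity⟩)]
  exact ⟨h1, by rw [pow_succ]; omega⟩

theorem log3_eq (j m : ℕ) (h1 : 3 ^ m ≤ 4 ^ j) (h2 : 4 ^ j < 3 * 3 ^ m) :
    Nat.log 3 (4 ^ j) = m := by
  rw [Nat.log_eq_iff (Or.inr ⟨by norm_num, by positivity⟩)]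
  exact ⟨h1, by rw [pow_succ]; omega⟩

theorem log4_le (b : ℕ) : 4 ^ Nat.log 4 (3 ^ b) ≤ 3 ^ b := Nat.pow_log_le_self 4 (by positivity)

theorem log4_lt (b : ℕ) : 3 ^ b < 4 * 4 ^ Nat.log 4 (3 ^ b) := by
  have := Nat.lt_pow_succ_log_self (b := 4) (by norm_num) (3 ^ b)
  rw [pow_succ] at this
  omega

theorem log3_le (j : ℕ) : 3 ^ Nat.log 3 (4 ^ j) ≤ 4 ^ j := Nat.pow_log_le_self 3 (by positivity)

theorem log3_lt (j : ℕ) : 4 ^ j < 3 * 3 ^ Nat.log 3 (4 ^ j) := by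
  have := Nat.lt_pow_succ_log_self (b := 3) (by norm_num) (4 ^ j)
  rw [pow_succ] at this
  omega

theorem odd3 (b : ℕ) : 3 ^ b % 2 = 1 := by
  rw [Nat.pow_mod]
  norm_num

/-- comparison of `rr b` with a fraction -/
theorem rr_lt (b p q : ℕ) (hq : 0 < q) :
    (rr b < (p : ℚ) / q ↔ q * 3 ^ b < p * 4 ^ Nat.log 4 (3 ^ b)) := by
  unfold rr
  rw [div_lt_div_iff₀ (by positivity) (by positivity)]
  rw [mul_comm (3 ^ b : ℚ) q]
  exact_mod_cast Iff.rfl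

theorem lt_rr (b p q : ℕ) (hq : 0 < q) :
    ((p : ℚ) / q < rr b ↔ p * 4 ^ Nat.log 4 (3 ^ b) < q * 3 ^ b) := by
  unfold rr
  rw [div_lt_div_iff₀ (by positivity) (by positivity)]
  rw [mul_comm (3 ^ b : ℚ) q]
  exact_mod_cast Iff.rfl

theorem ss_lt (j p q : ℕ) (hq : 0 < q) :
    (ss j < (p : ℚ) / q ↔ q * 4 ^ j < p * 3 ^ Nat.log 3 (4 ^ j)) := by
  unfold ss
  rw [div_lt_div_iff₀ (by positivity) (by positivity)]
  rw [mul_comm (4 ^ j : ℚ) q]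
  exact_mod_cast Iff.rfl

theorem lt_ss (j p q : ℕ) (hq : 0 < q) :
    ((p : ℚ) / q < ss j ↔ p * 3 ^ Nat.log 3 (4 ^ j) < q * 4 ^ j) := by
  unfold ss
  rw [div_lt_div_iff₀ (by positivity) (by positivity)]
  rw [mul_comm (4 ^ j : ℚ) q]
  exact_mod_cast Iff.rfl

/-! ### the eight conditions -/

theorem cA1 (b : ℕ) : (∃ j : ℕ, 4 ^ j ≤ 3 ^ b ∧ 3 ^ b < 2 * 4 ^ j) ↔ rr b < 2 := by
  have h := rr_lt b 2 1 one_pos
  norm_num at h
  rw [h]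
  constructor
  · rintro ⟨j, h1, h2⟩
    rw [log4_eq b j h1 (by omega)]
    exact h2
  · intro h1
    exact ⟨_, log4_le b, h1⟩

theorem cA3 (b : ℕ) : (∃ j : ℕ, 8 * 4 ^ j ≤ 5 * 3 ^ b ∧ 3 ^ b < 2 * 4 ^ j) ↔
    (8 / 5 ≤ rr b ∧ rr b < 2) := by
  have h := rr_lt b 2 1 one_pos
  have h' := rr_lt b 8 5 (by norm_num)
  norm_num at h h'
  rw [h, ← not_lt, h']
  constructor
  · rintro ⟨j, h1, h2⟩
    rw [log4_eq b j (by omega) (by omega)]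
    exact ⟨by omega, h2⟩
  · rintro ⟨h1, h2⟩
    exact ⟨_, by omega, h2⟩

theorem cA2 (b : ℕ) : (∃ j : ℕ, 3 * 3 ^ b ≤ 4 * 4 ^ j ∧ 2 * 4 ^ j < 3 * 3 ^ b) ↔
    2 < rr (b + 1) := by
  have h := lt_rr (b + 1) 2 1 one_pos
  norm_num at h
  rw [h]
  have e : 3 ^ (b + 1) = 3 * 3 ^ b := by rw [pow_succ, mul_comm]
  constructor
  · rintro ⟨j, h1, h2⟩
    have h3 := odd3 (b + 1)
    rw [log4_eq (b + 1) j (by omega) (by omega)]
    omega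
  · intro h1
    have h2 := log4_lt (b + 1)
    exact ⟨Nat.log 4 (3 ^ (b + 1)), by omega, by omega⟩

theorem cA4 (b : ℕ) : (∃ j : ℕ, 3 * 3 ^ b ≤ 5 * 4 ^ j ∧ 4 * 4 ^ j < 3 * 3 ^ b) ↔
    (1 < rr (b + 1) ∧ rr (b + 1) ≤ 5 / 4) := by
  have h := lt_rr (b + 1) 1 1 one_pos
  have h' := lt_rr (b + 1) 5 4 (by norm_num)
  norm_num at h h'
  rw [h, ← not_lt, h']
  have e : 3 ^ (b + 1) = 3 * 3 ^ b := by rw [pow_succ, mul_comm]
  have e2 : ∀ j : ℕ, 4 ^ (j + 1) = 4 * 4 ^ j := fun j => by rw [pow_succ, mul_comm]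
  constructor
  · rintro ⟨j, h1, h2⟩
    have h3 := e2 j
    rw [log4_eq (b + 1) (j + 1) (by omega) (by omega)]
    omega
  · rintro ⟨h1, h2⟩
    have hb : 1 ≤ 3 ^ b := Nat.one_le_pow _ _ (by norm_num)
    rcases Nat.eq_zero_or_pos (Nat.log 4 (3 ^ (b + 1))) with h3 | h3
    · rw [h3] at h1 h2
      omega
    · obtain ⟨j, hj⟩ : ∃ j, Nat.log 4 (3 ^ (b + 1)) = j + 1 := ⟨_, (Nat.succ_pred_eq_of_pos h3).symm⟩
      rw [hj] at h1 h2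
      have h4 := e2 j
      exact ⟨j, by omega, by omega⟩

theorem cB1 (j : ℕ) : (∃ b : ℕ, 3 ^ b < 4 ^ j ∧ 2 * 4 ^ j < 3 * 3 ^ b) ↔
    (1 < ss j ∧ ss j < 3 / 2) := by
  have h := lt_ss j 1 1 one_pos
  have h' := ss_lt j 3 2 (by norm_num)
  norm_num at h h'
  rw [h, h']
  constructor
  · rintro ⟨b, h1, h2⟩
    rw [log3_eq j b (by omega) (by omega)]
    omega
  · rintro ⟨h1, h2⟩
    exact ⟨_, h1, h2⟩

theorem cB2 (j : ℕ) : (∃ b : ℕ, 4 * 4 ^ j < 3 * 3 ^ b ∧ 3 ^ b < 2 * 4 ^ j) ↔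
    2 < ss (j + 1) := by
  have h := lt_ss (j + 1) 2 1 one_pos
  norm_num at h
  rw [h]
  have e : 4 ^ (j + 1) = 4 * 4 ^ j := by rw [pow_succ, mul_comm]
  constructor
  · rintro ⟨b, h1, h2⟩
    rw [log3_eq (j + 1) b (by omega) (by omega)]
    omega
  · intro h1
    have h2 := log3_lt (j + 1)
    exact ⟨Nat.log 3 (4 ^ (j + 1)), by omega, by omega⟩

theorem cB3 (j : ℕ) : (∃ b : ℕ, 5 * 3 ^ b < 8 * 4 ^ j ∧ 4 * 4 ^ j < 3 * 3 ^ b) ↔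
    (10 / 9 < ss (j + 2) ∧ ss (j + 2) < 4 / 3) := by
  have h := lt_ss (j + 2) 10 9 (by norm_num)
  have h' := ss_lt (j + 2) 4 3 (by norm_num)
  norm_num at h h'
  rw [h, h']
  have e : 4 ^ (j + 2) = 16 * 4 ^ j := by rw [pow_add, mul_comm]; norm_num
  have e2 : ∀ b : ℕ, 3 ^ (b + 2) = 9 * 3 ^ b := fun b => by rw [pow_add, mul_comm]; norm_num
  constructor
  · rintro ⟨b, h1, h2⟩
    have h3 := e2 b
    rw [log3_eq (j + 2) (b + 2) (by omega) (by omega)]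
    omega
  · rintro ⟨h1, h2⟩
    have h4 : 1 ≤ 4 ^ j := Nat.one_le_pow _ _ (by norm_num)
    have h3 : 2 ≤ Nat.log 3 (4 ^ (j + 2)) := Nat.le_log_of_pow_le (by norm_num) (by omega)
    obtain ⟨b, hb⟩ : ∃ b, Nat.log 3 (4 ^ (j + 2)) = b + 2 := ⟨_, (Nat.sub_add_cancel h3).symm⟩
    rw [hb] at h1 h2
    have h5 := e2 b
    exact ⟨b, by omega, by omega⟩

theorem cB4 (j : ℕ) : (∃ b : ℕ, 5 * 4 ^ j < 3 * 3 ^ b ∧ 3 ^ b < 2 * 4 ^ j) ↔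
    (3 / 2 < ss j ∧ ss j ≤ 9 / 5) := by
  have h := lt_ss j 3 2 (by norm_num)
  have h' := lt_ss j 9 5 (by norm_num)
  norm_num at h h'
  rw [h, ← not_lt, h']
  have e2 : ∀ b : ℕ, 3 ^ (b + 1) = 3 * 3 ^ b := fun b => by rw [pow_succ, mul_comm]
  constructor
  · rintro ⟨b, h1, h2⟩
    rcases b with _ | c
    · have h4 : 1 ≤ 4 ^ j := Nat.one_le_pow _ _ (by norm_num)
      omega
    · have h3 := e2 c
      rw [log3_eq j c (by omega) (by omega)]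
      omega
  · rintro ⟨h1, h2⟩
    refine ⟨Nat.log 3 (4 ^ j) + 1, ?_, ?_⟩
    · have h3 := e2 (Nat.log 3 (4 ^ j))
      have h4 := odd3 (Nat.log 3 (4 ^ j))
      rcases j with _ | i
      · norm_num at h2 ⊢
      · have h5 : 4 ^ (i + 1) = 4 * 4 ^ i := by rw [pow_succ, mul_comm]
        omega
    · have h3 := e2 (Nat.log 3 (4 ^ j))
      omega

/-! ### uniqueness -/

theorem uni4 (b j j' : ℕ) (k l : ℕ) (h1 : l * 4 ^ j ≤ k * 3 ^ b)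
    (h2 : k * 3 ^ b < 4 * (l * 4 ^ j)) (h1' : l * 4 ^ j' ≤ k * 3 ^ b)
    (h2' : k * 3 ^ b < 4 * (l * 4 ^ j')) : j = j' := by
  have key : ∀ i i' : ℕ, l * 4 ^ i ≤ k * 3 ^ b → k * 3 ^ b < 4 * (l * 4 ^ i') → i ≤ i' := by
    intro i i' g1 g2
    by_contra hcon
    push Not at hcon
    have g3 : 4 ^ (i' + 1) ≤ 4 ^ i := Nat.pow_le_pow_right (by norm_num) hcon
    rw [pow_succ] at g3
    have g4 : l * (4 ^ i' * 4) ≤ l * 4 ^ i := Nat.mul_le_mul_left l g3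
    have g5 : l * (4 ^ i' * 4) = 4 * (l * 4 ^ i') := by ring
    omega
  exact le_antisymm (key j j' h1 h2') (key j' j h1' h2)

theorem uni3 (j b b' : ℕ) (k l : ℕ) (h1 : l * 3 ^ b ≤ k * 4 ^ j)
    (h2 : k * 4 ^ j < 3 * (l * 3 ^ b)) (h1' : l * 3 ^ b' ≤ k * 4 ^ j)
    (h2' : k * 4 ^ j < 3 * (l * 3 ^ b')) : b = b' := by
  have key : ∀ i i' : ℕ, l * 3 ^ i ≤ k * 4 ^ j → k * 4 ^ j < 3 * (l * 3 ^ i') → i ≤ i' := by
    intro i i' g1 g2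
    by_contra hcon
    push Not at hcon
    have g3 : 3 ^ (i' + 1) ≤ 3 ^ i := Nat.pow_le_pow_right (by norm_num) hcon
    rw [pow_succ] at g3
    have g4 : l * (3 ^ i' * 3) ≤ l * 3 ^ i := Nat.mul_le_mul_left l g3
    have g5 : l * (3 ^ i' * 3) = 3 * (l * 3 ^ i') := by ring
    omega
  exact le_antisymm (key b b' h1 h2') (key b' b h1' h2)

/-! ### the sums -/

theorem sg3 (c : ℝ) : Summable (fun b : ℕ => c / 3 ^ b) := by
  have h := (summable_geometric_of_lt_one (r := (1 / 3 : ℝ)) (by norm_num) (by norm_num)).mul_left c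
  refine h.congr fun b => ?_
  rw [one_div, inv_pow, div_eq_mul_inv]

theorem sg4 (c : ℝ) : Summable (fun b : ℕ => c / 4 ^ b) := by
  have h := (summable_geometric_of_lt_one (r := (1 / 4 : ℝ)) (by norm_num) (by norm_num)).mul_left c
  refine h.congr fun b => ?_
  rw [one_div, inv_pow, div_eq_mul_inv]

theorem s_if (p : ℕ → Prop) [DecidablePred p] (g : ℕ → ℝ) (hg : Summable g) :
    Summable (fun b => if p b then g b else 0) := by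
  refine Summable.of_norm_bounded hg.norm ?_
  intro b
  split_ifs
  · exact le_rfl
  · simp

theorem shift1 (f : ℕ → ℝ) (hf : Summable f) (h0 : f 0 = 0) :
    ∑' b, f (b + 1) = ∑' b, f b := by
  rw [hf.tsum_eq_zero_add, h0, zero_add]

theorem rr_zero : rr 0 = 1 := by
  unfold rr
  norm_num

theorem ss_zero : ss 0 = 1 := by
  unfold ss
  norm_num

theorem ss_one : ss 1 = 4 / 3 := by
  unfold ss
  have h : Nat.log 3 (4 ^ 1) = 1 := log3_eq 1 1 (by norm_num) (by norm_num)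
  rw [h]
  norm_num

theorem sum_W : ∑' b : ℕ, (W b : ℝ) / 3 ^ b =
    (∑' b : ℕ, if rr b < 2 then (1 / 2 : ℝ) / 3 ^ b else 0) -
    (∑' b : ℕ, if 2 < rr b then (1 : ℝ) / 3 ^ b else 0) -
    (∑' b : ℕ, if 8 / 5 ≤ rr b ∧ rr b < 2 then (1 / 10 : ℝ) / 3 ^ b else 0) +
    (∑' b : ℕ, if 1 < rr b ∧ rr b ≤ 5 / 4 then (1 / 4 : ℝ) / 3 ^ b else 0) := by
  have s1 := s_if (fun b => rr b < 2) _ (sg3 (1 / 2))
  have s2 := s_if (fun b => 2 < rr b) _ (sg3 1)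
  have s3 := s_if (fun b => 8 / 5 ≤ rr b ∧ rr b < 2) _ (sg3 (1 / 10))
  have s4 := s_if (fun b => 1 < rr b ∧ rr b ≤ 5 / 4) _ (sg3 (1 / 4))
  rw [← s1.tsum_sub s2, ← (s1.sub s2).tsum_sub s3, ← ((s1.sub s2).sub s3).tsum_add s4]
  refine tsum_congr fun b => ?_
  unfold W om
  split_ifs <;> push_cast <;> ring

theorem sum_Z : ∑' j : ℕ, (Z j : ℝ) / 4 ^ j =
    (∑' j : ℕ, if 1 < ss j ∧ ss j < 3 / 2 then (1 / 2 : ℝ) / 4 ^ j else 0) -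
    (∑' j : ℕ, if 2 < ss j then (1 : ℝ) / 4 ^ j else 0) -
    (∑' j : ℕ, if 10 / 9 < ss j ∧ ss j < 4 / 3 then (1 : ℝ) / 4 ^ j else 0) +
    (∑' j : ℕ, if 3 / 2 < ss j ∧ ss j ≤ 9 / 5 then (1 / 20 : ℝ) / 4 ^ j else 0) := by
  have s1 := s_if (fun j => 1 < ss j ∧ ss j < 3 / 2) _ (sg4 (1 / 2))
  have s2 := s_if (fun j => 2 < ss j) _ (sg4 1)
  have s3 := s_if (fun j => 10 / 9 < ss j ∧ ss j < 4 / 3) _ (sg4 1)
  have s4 := s_if (fun j => 3 / 2 < ss j ∧ ss j ≤ 9 / 5) _ (sg4 (1 / 20))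
  rw [← s1.tsum_sub s2, ← (s1.sub s2).tsum_sub s3, ← ((s1.sub s2).sub s3).tsum_add s4]
  refine tsum_congr fun j => ?_
  unfold Z ze
  split_ifs <;> push_cast <;> ring

theorem trm_eq (x : ℕ × ℕ) : trm x =
    (if 4 ^ x.1 ≤ 3 ^ x.2 ∧ 3 ^ x.2 < 2 * 4 ^ x.1 then (1 / 2 : ℝ) / 3 ^ x.2 else 0) -
    (if 3 * 3 ^ x.2 ≤ 4 * 4 ^ x.1 ∧ 2 * 4 ^ x.1 < 3 * 3 ^ x.2 then (1 / 3 : ℝ) / 3 ^ x.2 else 0) +
    (if 3 ^ x.2 < 4 ^ x.1 ∧ 2 * 4 ^ x.1 < 3 * 3 ^ x.2 then (1 / 2 : ℝ) / 4 ^ x.1 else 0) -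
    (if 4 * 4 ^ x.1 < 3 * 3 ^ x.2 ∧ 3 ^ x.2 < 2 * 4 ^ x.1 then (1 / 4 : ℝ) / 4 ^ x.1 else 0) -
    ((if 8 * 4 ^ x.1 ≤ 5 * 3 ^ x.2 ∧ 3 ^ x.2 < 2 * 4 ^ x.1 then (1 / 10 : ℝ) / 3 ^ x.2 else 0) -
    (if 3 * 3 ^ x.2 ≤ 5 * 4 ^ x.1 ∧ 4 * 4 ^ x.1 < 3 * 3 ^ x.2 then (1 / 12 : ℝ) / 3 ^ x.2
      else 0) +
    (if 5 * 3 ^ x.2 < 8 * 4 ^ x.1 ∧ 4 * 4 ^ x.1 < 3 * 3 ^ x.2 then (1 / 16 : ℝ) / 4 ^ x.1
      else 0) -
    (if 5 * 4 ^ x.1 < 3 * 3 ^ x.2 ∧ 3 ^ x.2 < 2 * 4 ^ x.1 then (1 / 20 : ℝ) / 4 ^ x.1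
      else 0)) := by
  unfold trm
  rw [mu1 (4 ^ x.1) (3 ^ x.2) (by positivity) (by positivity),
    mu2 (4 ^ x.1) (3 ^ x.2) (by positivity) (by positivity)]
  have c1 : ((4 : ℝ) ^ x.1 ≤ 3 ^ x.2 ∧ (3 : ℝ) ^ x.2 < 2 * 4 ^ x.1) ↔
      (4 ^ x.1 ≤ 3 ^ x.2 ∧ 3 ^ x.2 < 2 * 4 ^ x.1) := by exact_mod_cast Iff.rfl
  have c2 : (3 * (3 : ℝ) ^ x.2 ≤ 4 * 4 ^ x.1 ∧ 2 * (4 : ℝ) ^ x.1 < 3 * 3 ^ x.2) ↔
      (3 * 3 ^ x.2 ≤ 4 * 4 ^ x.1 ∧ 2 * 4 ^ x.1 < 3 * 3 ^ x.2) := by exact_mod_cast Iff.rfl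
  have c3 : ((3 : ℝ) ^ x.2 < 4 ^ x.1 ∧ 2 * (4 : ℝ) ^ x.1 < 3 * 3 ^ x.2) ↔
      (3 ^ x.2 < 4 ^ x.1 ∧ 2 * 4 ^ x.1 < 3 * 3 ^ x.2) := by exact_mod_cast Iff.rfl
  have c4 : (4 * (4 : ℝ) ^ x.1 < 3 * 3 ^ x.2 ∧ (3 : ℝ) ^ x.2 < 2 * 4 ^ x.1) ↔
      (4 * 4 ^ x.1 < 3 * 3 ^ x.2 ∧ 3 ^ x.2 < 2 * 4 ^ x.1) := by exact_mod_cast Iff.rfl
  have c5 : (8 * (4 : ℝ) ^ x.1 ≤ 5 * 3 ^ x.2 ∧ (3 : ℝ) ^ x.2 < 2 * 4 ^ x.1) ↔
      (8 * 4 ^ x.1 ≤ 5 * 3 ^ x.2 ∧ 3 ^ x.2 < 2 * 4 ^ x.1) := by exact_mod_cast Iff.rfl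
  have c6 : (3 * (3 : ℝ) ^ x.2 ≤ 5 * 4 ^ x.1 ∧ 4 * (4 : ℝ) ^ x.1 < 3 * 3 ^ x.2) ↔
      (3 * 3 ^ x.2 ≤ 5 * 4 ^ x.1 ∧ 4 * 4 ^ x.1 < 3 * 3 ^ x.2) := by exact_mod_cast Iff.rfl
  have c7 : (5 * (3 : ℝ) ^ x.2 < 8 * 4 ^ x.1 ∧ 4 * (4 : ℝ) ^ x.1 < 3 * 3 ^ x.2) ↔
      (5 * 3 ^ x.2 < 8 * 4 ^ x.1 ∧ 4 * 4 ^ x.1 < 3 * 3 ^ x.2) := by exact_mod_cast Iff.rfl
  have c8 : (5 * (4 : ℝ) ^ x.1 < 3 * 3 ^ x.2 ∧ (3 : ℝ) ^ x.2 < 2 * 4 ^ x.1) ↔
      (5 * 4 ^ x.1 < 3 * 3 ^ x.2 ∧ 3 ^ x.2 < 2 * 4 ^ x.1) := by exact_mod_cast Iff.rfl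
  have v2 : 1 / (3 * (3 : ℝ) ^ x.2) = (1 / 3) / 3 ^ x.2 := by rw [div_div]
  have v4 : 1 / (4 * (4 : ℝ) ^ x.1) = (1 / 4) / 4 ^ x.1 := by rw [div_div]
  have v6 : 1 / 4 / (3 * (3 : ℝ) ^ x.2) = (1 / 12) / 3 ^ x.2 := by field_simp; norm_num
  have v7 : 1 / (16 * (4 : ℝ) ^ x.1) = (1 / 16) / 4 ^ x.1 := by rw [div_div]
  rw [if_congr c1 rfl rfl, if_congr c2 v2 rfl, if_congr c3 rfl rfl, if_congr c4 v4 rfl,
    if_congr c5 rfl rfl, if_congr c6 v6 rfl, if_congr c7 v7 rfl, if_congr c8 rfl rfl]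

open Classical in
theorem gBR : G_BR := by
  have hA1 := col_sum (fun j b => 4 ^ j ≤ 3 ^ b ∧ 3 ^ b < 2 * 4 ^ j) _
    (fun b j j' h h' => uni4 b j j' 1 1 (by omega) (by omega) (by omega) (by omega))
    (sg3 (1 / 2))
  have hA2 := col_sum (fun j b => 3 * 3 ^ b ≤ 4 * 4 ^ j ∧ 2 * 4 ^ j < 3 * 3 ^ b) _
    (fun b j j' h h' => uni4 b j j' 3 2 (by omega) (by omega) (by omega) (by omega))
    (sg3 (1 / 3))
  have hB1 := row_sum (fun j b => 3 ^ b < 4 ^ j ∧ 2 * 4 ^ j < 3 * 3 ^ b) _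
    (fun j b b' h h' => uni3 j b b' 1 1 (by omega) (by omega) (by omega) (by omega))
    (sg4 (1 / 2))
  have hB2 := row_sum (fun j b => 4 * 4 ^ j < 3 * 3 ^ b ∧ 3 ^ b < 2 * 4 ^ j) _
    (fun j b b' h h' => uni3 j b b' 2 1 (by omega) (by omega) (by omega) (by omega))
    (sg4 (1 / 4))
  have hA3 := col_sum (fun j b => 8 * 4 ^ j ≤ 5 * 3 ^ b ∧ 3 ^ b < 2 * 4 ^ j) _
    (fun b j j' h h' => uni4 b j j' 1 1 (by omega) (by omega) (by omega) (by omega))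
    (sg3 (1 / 10))
  have hA4 := col_sum (fun j b => 3 * 3 ^ b ≤ 5 * 4 ^ j ∧ 4 * 4 ^ j < 3 * 3 ^ b) _
    (fun b j j' h h' => uni4 b j j' 3 4 (by omega) (by omega) (by omega) (by omega))
    (sg3 (1 / 12))
  have hB3 := row_sum (fun j b => 5 * 3 ^ b < 8 * 4 ^ j ∧ 4 * 4 ^ j < 3 * 3 ^ b) _
    (fun j b b' h h' => uni3 j b b' 8 5 (by omega) (by omega) (by omega) (by omega))
    (sg4 (1 / 16))
  have hB4 := row_sum (fun j b => 5 * 4 ^ j < 3 * 3 ^ b ∧ 3 ^ b < 2 * 4 ^ j) _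
    (fun j b b' h h' => uni3 j b b' 2 1 (by omega) (by omega) (by omega) (by omega))
    (sg4 (1 / 20))
  have hall := (((hA1.sub hA2).add hB1).sub hB2).sub (((hA3.sub hA4).add hB3).sub hB4)
  have htrm := hall.tsum_eq
  rw [← tsum_congr trm_eq] at htrm
  -- the columns
  have eA1 : (∑' b : ℕ, if ∃ j : ℕ, 4 ^ j ≤ 3 ^ b ∧ 3 ^ b < 2 * 4 ^ j then (1 / 2 : ℝ) / 3 ^ b
      else 0) = ∑' b : ℕ, if rr b < 2 then (1 / 2 : ℝ) / 3 ^ b else 0 :=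
    tsum_congr fun b => if_congr (cA1 b) rfl rfl
  have eA3 : (∑' b : ℕ, if ∃ j : ℕ, 8 * 4 ^ j ≤ 5 * 3 ^ b ∧ 3 ^ b < 2 * 4 ^ j then
      (1 / 10 : ℝ) / 3 ^ b else 0) =
      ∑' b : ℕ, if 8 / 5 ≤ rr b ∧ rr b < 2 then (1 / 10 : ℝ) / 3 ^ b else 0 :=
    tsum_congr fun b => if_congr (cA3 b) rfl rfl
  have eA2 : (∑' b : ℕ, if ∃ j : ℕ, 3 * 3 ^ b ≤ 4 * 4 ^ j ∧ 2 * 4 ^ j < 3 * 3 ^ b then
      (1 / 3 : ℝ) / 3 ^ b else 0) = ∑' b : ℕ, if 2 < rr b then (1 : ℝ) / 3 ^ b else 0 := by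
    rw [← shift1 _ (s_if (fun b => 2 < rr b) _ (sg3 1))
      (if_neg (by rw [rr_zero]; norm_num))]
    refine tsum_congr fun b => if_congr (cA2 b) ?_ rfl
    rw [pow_succ]
    field_simp
  have eA4 : (∑' b : ℕ, if ∃ j : ℕ, 3 * 3 ^ b ≤ 5 * 4 ^ j ∧ 4 * 4 ^ j < 3 * 3 ^ b then
      (1 / 12 : ℝ) / 3 ^ b else 0) =
      ∑' b : ℕ, if 1 < rr b ∧ rr b ≤ 5 / 4 then (1 / 4 : ℝ) / 3 ^ b else 0 := by
    rw [← shift1 _ (s_if (fun b => 1 < rr b ∧ rr b ≤ 5 / 4) _ (sg3 (1 / 4)))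
      (if_neg (by rw [rr_zero]; norm_num))]
    refine tsum_congr fun b => if_congr (cA4 b) ?_ rfl
    rw [pow_succ]
    field_simp
    norm_num
  -- the rows
  have eB1 : (∑' j : ℕ, if ∃ b : ℕ, 3 ^ b < 4 ^ j ∧ 2 * 4 ^ j < 3 * 3 ^ b then
      (1 / 2 : ℝ) / 4 ^ j else 0) =
      ∑' j : ℕ, if 1 < ss j ∧ ss j < 3 / 2 then (1 / 2 : ℝ) / 4 ^ j else 0 :=
    tsum_congr fun j => if_congr (cB1 j) rfl rfl
  have eB2 : (∑' j : ℕ, if ∃ b : ℕ, 4 * 4 ^ j < 3 * 3 ^ b ∧ 3 ^ b < 2 * 4 ^ j then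
      (1 / 4 : ℝ) / 4 ^ j else 0) = ∑' j : ℕ, if 2 < ss j then (1 : ℝ) / 4 ^ j else 0 := by
    rw [← shift1 _ (s_if (fun j => 2 < ss j) _ (sg4 1))
      (if_neg (by rw [ss_zero]; norm_num))]
    refine tsum_congr fun j => if_congr (cB2 j) ?_ rfl
    rw [pow_succ]
    field_simp
  have eB3 : (∑' j : ℕ, if ∃ b : ℕ, 5 * 3 ^ b < 8 * 4 ^ j ∧ 4 * 4 ^ j < 3 * 3 ^ b then
      (1 / 16 : ℝ) / 4 ^ j else 0) =
      ∑' j : ℕ, if 10 / 9 < ss j ∧ ss j < 4 / 3 then (1 : ℝ) / 4 ^ j else 0 := by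
    have hs := s_if (fun j => 10 / 9 < ss j ∧ ss j < 4 / 3) _ (sg4 1)
    rw [← shift1 _ hs (if_neg (by rw [ss_zero]; norm_num)),
      ← shift1 _ ((summable_nat_add_iff 1).mpr hs) (if_neg (by rw [ss_one]; norm_num))]
    refine tsum_congr fun j => if_congr (cB3 j) ?_ rfl
    rw [show j + 1 + 1 = j + 2 from rfl, pow_add]
    field_simp
    norm_num
  have eB4 : (∑' j : ℕ, if ∃ b : ℕ, 5 * 4 ^ j < 3 * 3 ^ b ∧ 3 ^ b < 2 * 4 ^ j then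
      (1 / 20 : ℝ) / 4 ^ j else 0) =
      ∑' j : ℕ, if 3 / 2 < ss j ∧ ss j ≤ 9 / 5 then (1 / 20 : ℝ) / 4 ^ j else 0 :=
    tsum_congr fun j => if_congr (cB4 j) rfl rfl
  rw [eA1, eA2, eA3, eA4, eB1, eB2, eB3, eB4] at htrm
  unfold G_BR lam V
  rw [htrm, sum_W, sum_Z]
  ring

end Pool.Agent.Helper22.IR
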